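import Pool.Agent.helper12.DD.Spec2

/-!
# Project dw: module RES, restriction to a subgroup of `E` which contains `G`
-/

set_option autoImplicit false

open Pool.Agent.helper49.Blk

namespace Pool.Agent.DD

theorem RES_fixes {G E : Type} [Group G] [Group E] (ι : G →* E) (U₁ : Subgroup E)
    (h : ∀ x, ι x ∈ U₁) (S : Set (Subgroup G)) (N : Subgroup G) (ψ : N → ℂ) (e : U₁) :
    Fixes (ι.codRestrict U₁ h) S N ψ e ↔ Fixes ι S N ψ (e : E) := by
  have key : ∀ x y : G, ι.codRestrict U₁ h y = e * ι.codRestrict U₁ h x * e⁻¹ ↔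
      ι y = (e : E) * ι x * (e : E)⁻¹ := by
    intro x y
    constructor
    · intro hxy
      have := congrArg (Subtype.val) hxy
      simpa using this
    · intro hxy
      apply Subtype.ext
      simpa using hxy
  unfold Fixes
  constructor
  · rintro ⟨h1, h2⟩
    exact ⟨fun P hP x y hxy => h1 P hP x y ((key x y).2 hxy),
      fun x y hxy => h2 x y ((key x y).2 hxy)⟩
  · rintro ⟨h1, h2⟩
    exact ⟨fun P hP x y hxy => h1 P hP x y ((key x y).1 hxy),
      fun x y hxy => h2 x y ((key x y).1 hxy)⟩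

theorem RES_stab {G E : Type} [Group G] [Group E] (ι : G →* E) (U₁ : Subgroup E)
    (h : ∀ x, ι x ∈ U₁) (S : Set (Subgroup G)) (N : Subgroup G) (ψ : N → ℂ) (V : Subgroup E)
    (hV : StabIs ι S N ψ V) :
    StabIs (ι.codRestrict U₁ h) S N ψ ⊤ ↔ U₁ ≤ V := by
  constructor
  · intro H e he
    obtain ⟨g, hg⟩ := (H ⟨e, he⟩).1 (Subgroup.mem_top _)
    rw [RES_fixes] at hg
    exact (hV e).2 ⟨g, by simpa using hg⟩
  · intro H e
    refine ⟨fun _ => ?_, fun _ => Subgroup.mem_top _⟩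
    obtain ⟨g, hg⟩ := (hV e).1 (H e.2)
    refine ⟨g, ?_⟩
    rw [RES_fixes]
    simpa using hg

theorem RES_uniq {G E : Type} [Group G] [Group E] (ι : G →* E) (S : Set (Subgroup G))
    (N : Subgroup G) (ψ : N → ℂ) (V V' : Subgroup E) (hV : StabIs ι S N ψ V)
    (hV' : StabIs ι S N ψ V') : V = V' := by
  ext e
  rw [hV e, hV' e]

theorem RES_kset (h : STS_stmt) {G E : Type} [Group G] [Finite G] [Group E] [Finite E]
    (ι : G →* E) (hι : Function.Injective ι) (hn : ι.range.Normal) (p : ℕ)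
    (M : Ideal (integralClosure ℤ ℂ)) (χ : G → ℂ) (d : ℕ) (U₁ : Subgroup E)
    (hU : ∀ x, ι x ∈ U₁) (C : List (Subgroup G)) :
    kC p M (ι.codRestrict U₁ hU) χ C d ⊤ = ∑ᶠ V ∈ {V : Subgroup E | U₁ ≤ V}, kC p M ι χ C d V := by
  classical
  unfold kC
  have hfin : {V : Subgroup E | U₁ ≤ V}.Finite := Set.toFinite _
  have hunion : kset p M (ι.codRestrict U₁ hU) χ (NC C) {P | P ∈ C} d ⊤ =
      ⋃ V ∈ {V : Subgroup E | U₁ ≤ V}, kset p M ι χ (NC C) {P | P ∈ C} d V := by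
    ext ψ
    simp only [Set.mem_iUnion, Set.mem_ofPred_eq, kset, exists_prop]
    obtain ⟨V, hV, -⟩ := (h G E ι hι hn C (NC C) rfl ψ).2
    constructor
    · rintro ⟨h1, h2, h3, h4⟩
      exact ⟨V, (RES_stab ι U₁ hU _ _ ψ V hV).1 h4, h1, h2, h3, hV⟩
    · rintro ⟨V', hV', h1, h2, h3, h4⟩
      exact ⟨h1, h2, h3, (RES_stab ι U₁ hU _ _ ψ V' h4).2 hV'⟩
  rw [hunion]
  have hfk : ∀ V : Subgroup E, (kset p M ι χ (NC C) {P | P ∈ C} d V).Finite := fun V =>
    (IRF (NC C)).1.subset fun ψ hψ => hψ.1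
  rw [finsum_mem_eq_finite_toFinset_sum _ hfin]
  have : (⋃ V ∈ {V : Subgroup E | U₁ ≤ V}, kset p M ι χ (NC C) {P | P ∈ C} d V) =
      ((hfin.toFinset.biUnion fun V => (hfk V).toFinset : Finset (↥(NC C) → ℂ)) :
        Set (↥(NC C) → ℂ)) := by
    ext ψ
    simp
  rw [this, Set.ncard_coe_finset, Finset.card_biUnion]
  · refine Finset.sum_congr rfl fun V _ => ?_
    rw [Set.ncard_eq_toFinset_card _ (hfk V)]
  · intro V _ V' _ hne
    refine Finset.disjoint_left.2 ?_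
    intro ψ h1 h2
    rw [Set.Finite.mem_toFinset] at h1 h2
    exact hne (RES_uniq ι _ _ ψ V V' h1.2.2.2 h2.2.2.2)

theorem RES (h : STS_stmt) : RES_stmt := by
  intro G E _ _ _ _ ι hι hn p M χ d U₁ hU
  classical
  unfold altQ
  have hfin : {V : Subgroup E | U₁ ≤ V}.Finite := Set.toFinite _
  have hC : {C : List (Subgroup G) | Radical p C}.Finite := (FIN G p).1
  rw [finsum_mem_comm _ hfin hC]
  refine finsum_mem_congr rfl fun C _ => ?_
  rw [RES_kset h ι hι hn p M χ d U₁ hU C, finsum_mem_eq_finite_toFinset_sum _ hfin,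
    finsum_mem_eq_finite_toFinset_sum _ hfin]
  push_cast
  rw [Finset.sum_mul, Finset.sum_div, Finset.mul_sum]

end Pool.Agent.DD
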